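import Pool.Agent.Helper44.BB.Stmts

set_option autoImplicit false

namespace Pool.Agent.Helper44.BB

open Finset

theorem sol_sq (P : Finset ℕ) (hP : ∀ p ∈ P, p.Prime) : Squarefree (∏ p ∈ P, p) := by
  have h0 : (∏ p ∈ P, p) ≠ 0 := prod_ne_zero_iff.2 fun p hp => (hP p hp).ne_zero
  have h := Nat.primeFactors_prod hP
  rw [Nat.squarefree_iff_factorization_le_one h0]
  intro q
  rw [Nat.factorization_prod fun p hp => (hP p hp).ne_zero]
  rw [Finset.sum_apply']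
  by_cases hq : q ∈ P
  · rw [sum_eq_single_of_mem q hq]
    · rw [(hP q hq).factorization]; simp
    · intro p hp hpq
      rw [(hP p hp).factorization]
      simp [hpq]
  · rw [sum_eq_zero]
    · norm_num
    · intro p hp
      rw [(hP p hp).factorization]
      have : p ≠ q := fun h => hq (h ▸ hp)
      simp [this]

theorem sol_D (P : Finset ℕ) (hP : ∀ p ∈ P, p.Prime) :
    ((D (∏ p ∈ P, p) : ℕ) : ℚ) = ((∏ p ∈ P, p : ℕ) : ℚ) * ∑ p ∈ P, 1 / (p : ℚ) := by
  unfold D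
  rw [Nat.primeFactors_prod hP, Nat.cast_sum, mul_sum]
  refine sum_congr rfl fun q hq => ?_
  rw [Nat.cast_div (dvd_prod_of_mem _ hq) (Nat.cast_ne_zero.2 (hP q hq).ne_zero), mul_one_div]

theorem st_SOL : ST_SOL := by
  intro P Q h
  have hP0 : (∏ p ∈ P, p) ≠ 0 := prod_ne_zero_iff.2 fun p hp => (h.hP p hp).ne_zero
  have hQ0 : (∏ p ∈ Q, p) ≠ 0 := prod_ne_zero_iff.2 fun p hp => (h.hQ p hp).ne_zero
  have sP := sol_sq P h.hP
  have sQ := sol_sq Q h.hQ
  have dP := sol_D P h.hP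
  have dQ := sol_D Q h.hQ
  set a := ∏ p ∈ P, p with ha
  set b := ∏ p ∈ Q, p with hb
  have key : D a * D b = a * b := by
    have : ((D a * D b : ℕ) : ℚ) = ((a * b : ℕ) : ℚ) := by
      push_cast
      rw [dP, dQ]
      have := h.eq
      calc (a : ℚ) * (∑ p ∈ P, 1 / (p : ℚ)) * ((b : ℚ) * ∑ q ∈ Q, 1 / (q : ℚ))
          = a * b * ((∑ p ∈ P, 1 / (p : ℚ)) * ∑ q ∈ Q, 1 / (q : ℚ)) := by ring
        _ = a * b := by rw [this, mul_one]
    exact_mod_cast this
  have d1 : a ∣ D b := (D_coprime sP).dvd_of_dvd_mul_left (key ▸ Dvd.intro _ rfl)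
  have d2 : b ∣ D a := (D_coprime sQ).dvd_of_dvd_mul_right (key ▸ Dvd.intro_left _ rfl)
  obtain ⟨v, hv⟩ := d1
  obtain ⟨u, hu⟩ := d2
  have huv : u * v = 1 := by
    rw [hv, hu] at key
    have h1 : (a * b) * (u * v) = (a * b) * 1 := by
      rw [mul_one]
      calc (a * b) * (u * v) = b * u * (a * v) := by ring
        _ = a * b := key
    exact Nat.eq_of_mul_eq_mul_left (Nat.pos_of_ne_zero (mul_ne_zero hP0 hQ0)) h1
  have hu1 : u = 1 := Nat.eq_one_of_mul_eq_one_right huv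
  have hv1 : v = 1 := Nat.eq_one_of_mul_eq_one_left huv
  exact ⟨sP, sQ, by rw [hu, hu1, mul_one], by rw [hv, hv1, mul_one]⟩

end Pool.Agent.Helper44.BB
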